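import Pool.Agent.Results.MP_0f71ae_nt.RegularGrowth
import Pool.Agent.Run7.h254.BS.Parts

/-!
# Progression-free subsets of bounded sets and of weighted intervals

Let `r k N` be the largest size of a subset of `{1, ..., N}` without arithmetic progressions of length `k`; so
`r 3 N` is the number `R_3(N)` of the question, whether the smallest possible value `G_3(N)` of the largest size of a
progression-free subset of a set of `N` integers is asymptotic to `R_3(N)`.  For all `N` outside a set `E` of upper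
logarithmic density at most `ε`, with `W = exp (c √(log N))`:

* (1) All sets of `N` integers in an interval of length `N W` contain a progression-free set with at least
  `(1 - ε) r k N` elements: among these sets the interval is asymptotically the worst.  More generally, for all
  nonnegative weights on an interval of at most `N W` integers there is a progression-free set whose weight is at
  least `(1 - ε) (r k N / N)` times the total weight.
* (2) All sets of `N` integers of absolute value up to about `exp W` contain a progression-free set with at least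
  `(1/2 - ε) r k N` elements.  (For arbitrary sets of `N` integers the result `MP_0f71ae_nt.ArbitrarySets` has
  `1/4 - ε`.)

Proof.  By the starting theorem `MP_0f71ae_nt.RegularGrowth` the density `r k N / N` is almost constant in the window
`N exp (± c √(log N))`.  (1) Translates of an extremal set of a longer interval; (2) a prime `p` between `N W^2` and
`4 N W^2` modulo which almost all elements have different residues, and translates modulo `p` of an extremal set for
`⌊p / 2⌋`.
-/

set_option autoImplicit false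

namespace Pool.Agent.Results.MP_bdcdc5_co.BoundedSets

open Finset
open Pool.Agent.H617R3.AP (r)

/-- `S` contains no arithmetic progression `a, a + d, ..., a + (k - 1) d` with `d ≠ 0`. -/
def Free (k : ℕ) (S : Finset ℤ) : Prop :=
  ∀ a d : ℤ, d ≠ 0 → ¬ ∀ i : ℕ, i < k → a + i * d ∈ S

/-- the growth conditions hold for all large `N` -/
theorem large {c K : ℝ} (hc : 0 < c) : ∃ N₀ : ℕ, ∀ N : ℕ, N₀ ≤ N →
    K ≤ Real.exp (c * √(Real.log N)) ∧ Real.exp (8 * (c * √(Real.log N))) ≤ N ∧ K ≤ N := by
  have h1 : Filter.Tendsto (fun N : ℕ => √(Real.log N)) Filter.atTop Filter.atTop :=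
    Real.tendsto_sqrt_atTop.comp (Real.tendsto_log_atTop.comp tendsto_natCast_atTop_atTop)
  have h2 : Filter.Tendsto (fun N : ℕ => Real.exp (c * √(Real.log N))) Filter.atTop Filter.atTop :=
    Real.tendsto_exp_atTop.comp (h1.const_mul_atTop hc)
  have h3 := (h2.eventually_ge_atTop K).and ((h1.eventually_ge_atTop (8 * c)).and
    ((tendsto_natCast_atTop_atTop (R := ℝ)).eventually_ge_atTop (max K 1)))
  obtain ⟨N₀, hN₀⟩ := Filter.eventually_atTop.1 h3
  refine ⟨N₀, fun N hN => ?_⟩
  obtain ⟨h4, h5, h6⟩ := hN₀ N hN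
  refine ⟨h4, ?_, (le_max_left _ _).trans h6⟩
  have hN1 : (1 : ℝ) ≤ N := (le_max_right _ _).trans h6
  have h7 : 8 * (c * √(Real.log N)) ≤ Real.log N := by
    have h8 : √(Real.log N) * √(Real.log N) = Real.log N := Real.mul_self_sqrt (Real.log_nonneg hN1)
    calc 8 * (c * √(Real.log N)) = 8 * c * √(Real.log N) := by ring
      _ ≤ √(Real.log N) * √(Real.log N) := mul_le_mul_of_nonneg_right h5 (Real.sqrt_nonneg _)
      _ = _ := h8
  calc Real.exp (8 * (c * √(Real.log N))) ≤ Real.exp (Real.log N) := Real.exp_le_exp.2 h7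
    _ = N := Real.exp_log (by linarith)

open Classical in
/-- **Progression-free subsets of bounded sets and of weighted intervals.** -/
theorem result (k : ℕ) (hk : 3 ≤ k) (ε : ℝ) (h0 : 0 < ε) (h1 : ε ≤ 1) :
    ∃ (c C : ℝ) (E : Set ℕ), 0 < c ∧
      (∀ x : ℕ, 1 ≤ x → ∑ N ∈ (Icc 1 x).filter (fun N => N ∈ E), (1 : ℝ) / N ≤ ε * Real.log x + C) ∧
      ∀ N : ℕ, 1 ≤ N → N ∉ E →
        (∀ (a : ℤ) (M : ℕ) (w : ℤ → ℝ), (∀ x, 0 ≤ w x) → (M : ℝ) ≤ N * Real.exp (c * √(Real.log N)) →
          ∃ S : Finset ℤ, S ⊆ Ico a (a + M) ∧ Free k S ∧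
            (1 - ε) * ((r k N : ℝ) / N) * ∑ x ∈ Ico a (a + M), w x ≤ ∑ x ∈ S, w x) ∧
        (∀ (A : Finset ℤ) (a : ℤ) (M : ℕ), A.card = N → A ⊆ Ico a (a + M) →
          (M : ℝ) ≤ N * Real.exp (c * √(Real.log N)) →
          ∃ S : Finset ℤ, S ⊆ A ∧ Free k S ∧ (1 - ε) * r k N ≤ S.card) ∧
        ∀ A : Finset ℤ, A.card = N →
          (∀ a ∈ A, Real.log (2 * |(a : ℝ)| + 2) ≤ Real.exp (c * √(Real.log N))) →
          ∃ S : Finset ℤ, S ⊆ A ∧ Free k S ∧ (1 / 2 - ε) * r k N ≤ S.card := by
  obtain ⟨c', C, E', hc', hE1, hE2⟩ :=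
    (Pool.Agent.Results.MP_0f71ae_nt.RegularGrowth.result k hk).2.2 (ε / 4) (by linarith) (by linarith)
  obtain ⟨P₀, hP₀⟩ := Pool.Agent.Run7.h254.BS.good_prime
  set c := c' / 8 with hcdef
  have hc : 0 < c := by positivity
  obtain ⟨N₀, hN₀⟩ := large (c := c) (K := 16 / ε + P₀) hc
  refine ⟨c, C + N₀, E' ∪ {N | N < N₀}, hc, ?_, ?_⟩
  · intro x hx
    have e1 : (Icc 1 x).filter (fun N => N ∈ E' ∪ {N | N < N₀}) ⊆
        (Icc 1 x).filter (fun N => N ∈ E') ∪ (range N₀).filter (fun N => 1 ≤ N) := by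
      intro N hN
      rw [mem_filter, mem_Icc] at hN
      rw [mem_union, mem_filter, mem_filter, mem_Icc, mem_range]
      rcases hN.2 with h | h
      · left; exact ⟨hN.1, h⟩
      · right; exact ⟨h, hN.1.1⟩
    have e2 : ∑ N ∈ (Icc 1 x).filter (fun N => N ∈ E' ∪ {N | N < N₀}), (1 : ℝ) / N ≤
        ∑ N ∈ (Icc 1 x).filter (fun N => N ∈ E') ∪ (range N₀).filter (fun N => 1 ≤ N), (1 : ℝ) / N :=
      sum_le_sum_of_subset_of_nonneg e1 (fun _ _ _ => by positivity)
    have e3 : ∑ N ∈ (Icc 1 x).filter (fun N => N ∈ E') ∪ (range N₀).filter (fun N => 1 ≤ N), (1 : ℝ) / N ≤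
        ∑ N ∈ (Icc 1 x).filter (fun N => N ∈ E'), (1 : ℝ) / N +
          ∑ N ∈ (range N₀).filter (fun N => 1 ≤ N), (1 : ℝ) / N := by
      rw [← sum_union_inter]
      have : 0 ≤ ∑ N ∈ (Icc 1 x).filter (fun N => N ∈ E') ∩ (range N₀).filter (fun N => 1 ≤ N), (1 : ℝ) / N :=
        sum_nonneg (fun _ _ => by positivity)
      linarith
    have e4 : ∑ N ∈ (range N₀).filter (fun N => 1 ≤ N), (1 : ℝ) / N ≤ N₀ := by
      calc ∑ N ∈ (range N₀).filter (fun N => 1 ≤ N), (1 : ℝ) / N ≤
            ∑ _N ∈ (range N₀).filter (fun N => 1 ≤ N), (1 : ℝ) := by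
            refine sum_le_sum (fun N hN => ?_)
            have h2 : (1 : ℝ) ≤ N := by exact_mod_cast (mem_filter.1 hN).2
            rw [div_le_one (by linarith)]
            exact h2
        _ = (((range N₀).filter (fun N => 1 ≤ N)).card : ℝ) := by simp
        _ ≤ N₀ := by
            have h2 := card_filter_le (range N₀) (fun N => 1 ≤ N)
            rw [card_range] at h2
            exact_mod_cast h2
    have e5 := hE1 x hx
    have e6 : 0 ≤ Real.log x := Real.log_nonneg (by exact_mod_cast hx)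
    have e7 : ε / 4 * Real.log x ≤ ε * Real.log x := mul_le_mul_of_nonneg_right (by linarith) e6
    refine le_trans (le_of_eq ?_) (le_trans e2 (le_trans e3 (le_trans (add_le_add e5 e4) (by linarith))))
    congr 1
    ext N
    simp only [mem_filter]
  · intro N hN hNE
    have hNE' : N ∉ E' := fun h => hNE (Or.inl h)
    have hNN : N₀ ≤ N := by
      by_contra h
      exact hNE (Or.inr (by simpa using h))
    obtain ⟨g1, g2, g3⟩ := hN₀ N hNN
    set u := c * √(Real.log N) with hu
    set X := Real.exp u with hX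
    have hreg := (hE2 N hN hNE').1
    have hcu : c' * √(Real.log N) = 8 * u := by rw [hu, hcdef]; ring
    rw [hcu] at hreg
    have hX8 : Real.exp (8 * u) = X ^ 8 := by
      rw [hX, ← Real.exp_nat_mul]; norm_num
    have hX8' : Real.exp (-(8 * u)) = (X ^ 8)⁻¹ := by rw [Real.exp_neg, hX8]
    have hX1' : Real.exp (-u) = X⁻¹ := by rw [Real.exp_neg]
    rw [hX8, hX8'] at hreg
    rw [hX8] at g2
    have hNr : (1 : ℝ) ≤ N := by exact_mod_cast hN
    have hP0r : (0 : ℝ) ≤ P₀ := Nat.cast_nonneg _
    have h16 : 0 ≤ 16 / ε := by positivity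
    have hXε : 16 / ε ≤ X := by linarith
    have hX16 : 16 ≤ X := by
      refine le_trans ?_ hXε
      rw [le_div_iff₀ h0]
      linarith
    have hX0 : 0 < X := by linarith
    have hXε' : 16 ≤ ε * X := by
      rw [div_le_iff₀ h0] at hXε
      linarith
    have hr0 : (0 : ℝ) < r k N := Pool.Agent.H617R3.AP.r_pos hk hN
    have hX81 : (1 : ℝ) ≤ X ^ 8 := one_le_pow₀ (by linarith)
    have hlow : ∀ M : ℕ, (N : ℝ) ≤ M → (M : ℝ) ≤ N * X ^ 8 → (1 - ε / 4) * (M / N * r k N) ≤ r k M := by
      intro M hM1 hM2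
      have h2 := abs_le.1 (hreg M (le_trans (by
        calc (N : ℝ) * (X ^ 8)⁻¹ ≤ N * 1 :=
              mul_le_mul_of_nonneg_left (inv_le_one_of_one_le₀ hX81) (by linarith)
          _ = N := mul_one _) hM1) hM2)
      have hM0 : (0 : ℝ) < M := lt_of_lt_of_le (by linarith) hM1
      have h3 : (r k M : ℝ) / r k N / ((M : ℝ) / N) * ((M : ℝ) / N * r k N) = r k M := by
        field_simp
      have h4 : (0 : ℝ) ≤ (M : ℝ) / N * r k N := by positivity
      calc (1 - ε / 4) * (M / N * r k N) ≤ (r k M : ℝ) / r k N / ((M : ℝ) / N) * ((M : ℝ) / N * r k N) :=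
            mul_le_mul_of_nonneg_right (by linarith [h2.1]) h4
        _ = _ := h3
    have hint := fun a M w hw hM =>
      Pool.Agent.Run7.h254.BS.part1 hk h0 h1 hN hX16 hXε' hlow a M w hw hM
    refine ⟨hint, fun A a M hA hAI hM => ?_, fun A hA hAb => ?_⟩
    · obtain ⟨S, hS1, hS2, hS3⟩ := hint a M (fun x => if x ∈ A then 1 else 0)
        (fun x => by split_ifs <;> norm_num) hM
      refine ⟨S ∩ A, inter_subset_right, fun x d hd hmem => hS2 x d hd (fun i hi => (mem_inter.1 (hmem i hi)).1), ?_⟩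
      rw [sum_ite_mem, sum_ite_mem, inter_eq_right.2 hAI] at hS3
      simp only [sum_const, nsmul_eq_mul, mul_one] at hS3
      rw [hA] at hS3
      have h2 : (1 - ε) * ((r k N : ℝ) / N) * N = (1 - ε) * r k N := by
        have : (N : ℝ) ≠ 0 := by linarith
        field_simp
      rw [h2] at hS3
      exact hS3
    · exact Pool.Agent.Run7.h254.BS.part2 hk hP₀ h0 h1 hN hX16 hXε' (by linarith) hlow A hA hAb

end Pool.Agent.Results.MP_bdcdc5_co.BoundedSets
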